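import Mathlib

namespace Pool.Agent.Results.MP_b8a1e8_lc.NotIncluded

/-- A grammar `(V, T, P, S)` whose symbols are natural numbers: `V` is the total alphabet, `T` the
terminal alphabet, `S` a nonterminal, and every rule has a left side containing a nonterminal. -/
structure Gram where
  V : Finset ℕ
  T : Finset ℕ
  T_sub : T ⊆ V
  P : Finset (List ℕ × List ℕ)
  S : ℕ
  S_mem : S ∈ V \ T
  left_nonterminal : ∀ r ∈ P, ∃ A ∈ r.1, A ∈ V \ T
  left_sub : ∀ r ∈ P, ∀ c ∈ r.1, c ∈ V
  right_sub : ∀ r ∈ P, ∀ c ∈ r.2, c ∈ V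

/-- Monotonous grammars. -/
def Gram.Mono (G : Gram) : Prop := ∀ r ∈ G.P, r.1.length ≤ r.2.length

/-- Context-sensitive grammars: every rule has the form `α A β → α γ β` with `A` a nonterminal and
`γ` nonempty. -/
def Gram.CS (G : Gram) : Prop :=
  ∀ r ∈ G.P, ∃ (α β γ : List ℕ) (A : ℕ), A ∈ G.V \ G.T ∧ γ ≠ [] ∧
    r = (α ++ [A] ++ β, α ++ γ ++ β)

/-- The jumping step: an occurrence of the left side is deleted and the right side is inserted
anywhere in what remains. -/
def JStep (G : Gram) (s t : List ℕ) : Prop :=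
  ∃ (u v u' v' x y : List ℕ), (x, y) ∈ G.P ∧ u ++ v = u' ++ v' ∧
    s = u ++ x ++ v ∧ t = u' ++ y ++ v'

/-- The context-preserving jumping step. -/
def BStep (G : Gram) (s t : List ℕ) : Prop :=
  ∃ (u v u' v' α β γ : List ℕ) (A : ℕ), A ∈ G.V \ G.T ∧
    (α ++ [A] ++ β, α ++ γ ++ β) ∈ G.P ∧
    u ++ α ++ β ++ v = u' ++ α ++ β ++ v' ∧
    s = u ++ α ++ [A] ++ β ++ v ∧ t = u' ++ α ++ γ ++ β ++ v'

/-- The language of terminal words derived from the start symbol by the relation `ρ`. -/
def lang (G : Gram) (ρ : List ℕ → List ℕ → Prop) : Language ℕ :=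
  {w | (∀ c ∈ w, c ∈ G.T) ∧ Relation.ReflTransGen ρ [G.S] w}

/-- The context-sensitive grammar `S → Xb`, `Xb → aXb`, `Xb → ab` with
`a = 0`, `b = 1`, `S = 2`, `X = 3`. -/
def G₀ : Gram where
  V := {0, 1, 2, 3}
  T := {0, 1}
  T_sub := by decide
  P := {([2], [3, 1]), ([3, 1], [0, 3, 1]), ([3, 1], [0, 1])}
  S := 2
  S_mem := by decide
  left_nonterminal := by decide
  left_sub := by decide
  right_sub := by decide

theorem G₀_CS : G₀.CS := by
  intro r hr
  have hr' : r = ([2], [3, 1]) ∨ r = ([3, 1], [0, 3, 1]) ∨ r = ([3, 1], [0, 1]) := by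
    simpa [G₀] using hr
  rcases hr' with rfl | rfl | rfl
  · exact ⟨[], [], [3, 1], 2, by decide, by simp, rfl⟩
  · exact ⟨[], [1], [0, 3], 3, by decide, by simp, rfl⟩
  · exact ⟨[], [1], [0], 3, by decide, by simp, rfl⟩

theorem rule_cases {α β γ : List ℕ} {A : ℕ} (hA : A ∈ G₀.V \ G₀.T)
    (h : (α ++ [A] ++ β, α ++ γ ++ β) ∈ G₀.P) :
    (α = [] ∧ β = [] ∧ A = 2 ∧ γ = [3, 1]) ∨ (α = [] ∧ β = [1] ∧ A = 3 ∧ γ = [0, 3]) ∨
    (α = [] ∧ β = [1] ∧ A = 3 ∧ γ = [0]) := by
  have h' : (α ++ [A] ++ β = [2] ∧ α ++ γ ++ β = [3, 1]) ∨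
      (α ++ [A] ++ β = [3, 1] ∧ α ++ γ ++ β = [0, 3, 1]) ∨
      (α ++ [A] ++ β = [3, 1] ∧ α ++ γ ++ β = [0, 1]) := by
    simpa [G₀] using h
  have hA' : A = 2 ∨ A = 3 := by
    have : A ∈ ({0, 1, 2, 3} : Finset ℕ) \ {0, 1} := hA
    simp at this
    omega
  have key : ∀ c : ℕ, α ++ [A] ++ β = [3, 1] → α = [] ∧ β = [1] ∧ A = 3 := by
    intro _ h1
    cases α with
    | nil =>
      simp at h1
      exact ⟨rfl, h1.2, h1.1⟩
    | cons x α =>
      cases α with
      | nil =>
        simp at h1
        omega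
      | cons y α =>
        simp at h1
  rcases h' with ⟨h1, h2⟩ | ⟨h1, h2⟩ | ⟨h1, h2⟩
  · left
    cases α with
    | nil =>
      simp at h1
      obtain ⟨h1, rfl⟩ := h1
      simp at h2
      exact ⟨rfl, rfl, h1, h2⟩
    | cons x α => simp at h1
  · right; left
    obtain ⟨rfl, rfl, rfl⟩ := key 0 h1
    refine ⟨rfl, rfl, rfl, ?_⟩
    have h3 : γ ++ [1] = [0, 3] ++ [1] := by simpa using h2
    exact List.append_cancel_right h3
  · right; right
    obtain ⟨rfl, rfl, rfl⟩ := key 0 h1
    refine ⟨rfl, rfl, rfl, ?_⟩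
    have h3 : γ ++ [1] = [0] ++ [1] := by simpa using h2
    exact List.append_cancel_right h3

/-- The sentential forms of the grammar. -/
def Form (w : List ℕ) : Prop :=
  w = [2] ∨ (∃ n, w = List.replicate n 0 ++ [3, 1]) ∨ (∃ n, w = List.replicate (n + 1) 0 ++ [1])

theorem form_step {s t : List ℕ} (h : BStep G₀ s t) (hs : Form s) : Form t := by
  obtain ⟨u, v, u', v', α, β, γ, A, hA, hr, heq, rfl, rfl⟩ := h
  have key : ∀ n : ℕ, u ++ [3, 1] ++ v = List.replicate n 0 ++ [3, 1] → u ++ [1] ++ v =
      u' ++ [1] ++ v' → u' = List.replicate n 0 ∧ v' = [] := by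
    intro n h1 h2
    have h3 : List.replicate n 0 ++ 3 :: [1] = u ++ 3 :: (1 :: v) := by simpa using h1.symm
    rw [List.append_cons_inj_of_notMem (by simp) (by simp)] at h3
    obtain ⟨rfl, -, h4⟩ := h3
    have hv : v = [] := by simpa using h4.symm
    subst hv
    have h5 : List.replicate n 0 ++ 1 :: [] = u' ++ 1 :: v' := by simpa using h2
    rw [List.append_cons_inj_of_notMem (by simp) (by simp)] at h5
    exact ⟨h5.1.symm, h5.2.2.symm⟩
  have three : ∀ w : List ℕ, Form w → 3 ∈ w → ∃ n, w = List.replicate n 0 ++ [3, 1] := by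
    intro w hw h3
    rcases hw with rfl | h | ⟨n, rfl⟩
    · simp at h3
    · exact h
    · simp at h3
  rcases rule_cases hA hr with ⟨rfl, rfl, rfl, rfl⟩ | ⟨rfl, rfl, rfl, rfl⟩ | ⟨rfl, rfl, rfl, rfl⟩
  · rcases hs with h | ⟨n, h⟩ | ⟨n, h⟩
    · have : u = [] ∧ v = [] := by
        have := congrArg List.length h
        simp at this
        exact ⟨List.length_eq_zero_iff.mp (by omega), List.length_eq_zero_iff.mp (by omega)⟩
      obtain ⟨rfl, rfl⟩ := this
      have : u' = [] ∧ v' = [] := by
        simpa using heq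
      obtain ⟨rfl, rfl⟩ := this
      right; left
      exact ⟨0, by simp⟩
    · exfalso
      have : 2 ∈ List.replicate n 0 ++ [3, 1] := by rw [← h]; simp
      simp at this
    · exfalso
      have : 2 ∈ List.replicate (n + 1) 0 ++ [1] := by rw [← h]; simp
      simp at this
  · obtain ⟨n, hn⟩ := three _ hs (by simp)
    obtain ⟨rfl, rfl⟩ := key n (by simpa using hn) (by simpa using heq)
    right; left
    exact ⟨n + 1, by simp [List.replicate_succ']⟩
  · obtain ⟨n, hn⟩ := three _ hs (by simp)
    obtain ⟨rfl, rfl⟩ := key n (by simpa using hn) (by simpa using heq)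
    right; right
    exact ⟨n, by simp [List.replicate_succ']⟩

theorem form_of_reach {t : List ℕ} (h : Relation.ReflTransGen (BStep G₀) [2] t) : Form t := by
  induction h with
  | refl => exact Or.inl rfl
  | tail _ hst ih => exact form_step hst ih

theorem reach (n : ℕ) :
    Relation.ReflTransGen (BStep G₀) [2] (List.replicate n 0 ++ [3, 1]) := by
  induction n with
  | zero =>
    refine Relation.ReflTransGen.single ?_
    exact ⟨[], [], [], [], [], [], [3, 1], 2, by decide, by decide, rfl, rfl, rfl⟩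
  | succ n ih =>
    refine ih.tail ?_
    refine ⟨List.replicate n 0, [], List.replicate n 0, [], [], [1], [0, 3], 3, by decide,
      by decide, rfl, by simp, by simp [List.replicate_succ']⟩

theorem lang_G₀ (w : List ℕ) :
    w ∈ lang G₀ (BStep G₀) ↔ ∃ n, w = List.replicate (n + 1) 0 ++ [1] := by
  constructor
  · rintro ⟨hT, hr⟩
    rcases form_of_reach hr with rfl | ⟨n, rfl⟩ | h
    · exact absurd (hT 2 (by simp)) (by decide)
    · exact absurd (hT 3 (by simp)) (by decide)
    · exact h
  · rintro ⟨n, rfl⟩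
    refine ⟨?_, ?_⟩
    · intro c hc
      have : c = 0 ∨ c = 1 := by
        rcases List.mem_append.mp hc with h | h
        · exact Or.inl (List.eq_of_mem_replicate h)
        · exact Or.inr (by simpa using h)
      change c ∈ ({0, 1} : Finset ℕ)
      simpa using this
    · refine (reach n).tail ?_
      refine ⟨List.replicate n 0, [], List.replicate n 0, [], [], [1], [0], 3, by decide,
        by decide, rfl, by simp, by simp [List.replicate_succ']⟩

/-- There is a context-sensitive grammar whose language under the context-preserving jumping step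
is not the language of any monotonous grammar under the jumping step. -/
theorem result : ∃ G : Gram, G.CS ∧
    ∀ H : Gram, H.Mono → lang H (JStep H) ≠ lang G (BStep G) := by
  refine ⟨G₀, G₀_CS, ?_⟩
  intro H hH heq
  set c := H.P.sup (fun r => r.2.length) with hc
  have hw : List.replicate (c + 1) 0 ++ [1] ∈ lang H (JStep H) := by
    rw [heq, lang_G₀]
    exact ⟨c, rfl⟩
  obtain ⟨hT, hr⟩ := hw
  rcases Relation.ReflTransGen.cases_tail hr with h | ⟨s, hs, hst⟩
  · have h1 : H.S ∈ H.T := hT H.S (by rw [h]; simp)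
    exact (Finset.mem_sdiff.mp H.S_mem).2 h1
  · obtain ⟨u, v, u', v', x, y, hxy, huv, rfl, hw⟩ := hst
    have hy : y.length ≤ c := Finset.le_sup (f := fun r : List ℕ × List ℕ => r.2.length) hxy
    have hxne : 0 < x.length := by
      obtain ⟨A, hA, _⟩ := H.left_nonterminal _ hxy
      exact List.length_pos_of_mem hA
    have hy0 : 0 < y.length := lt_of_lt_of_le hxne (hH _ hxy)
    have hTy : ∀ d ∈ y, d ∈ H.T := fun d hd => hT d (by rw [hw]; simp [hd])
    have hTuv : ∀ d ∈ u ++ v, d ∈ H.T := by
      intro d hd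
      rw [huv] at hd
      apply hT
      rw [hw]
      simp only [List.mem_append] at hd ⊢
      tauto
    have h1 : y ++ (u ++ v) ∈ lang G₀ (BStep G₀) := by
      rw [← heq]
      refine ⟨?_, hs.tail ⟨u, v, [], u ++ v, x, y, hxy, rfl, rfl, rfl⟩⟩
      intro d hd
      rcases List.mem_append.mp hd with h | h
      · exact hTy d h
      · exact hTuv d h
    have h2 : (u ++ v) ++ y ∈ lang G₀ (BStep G₀) := by
      rw [← heq]
      refine ⟨?_, hs.tail ⟨u, v, u ++ v, [], x, y, hxy, by simp, rfl, by simp⟩⟩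
      intro d hd
      rcases List.mem_append.mp hd with h | h
      · exact hTuv d h
      · exact hTy d h
    rw [lang_G₀] at h1 h2
    obtain ⟨m, hm⟩ := h1
    obtain ⟨n, hn⟩ := h2
    have hlen : (u ++ v).length + y.length = c + 2 := by
      have := congrArg List.length hw
      rw [huv]
      simp only [List.length_append, List.length_replicate, List.length_cons,
        List.length_nil] at this ⊢
      omega
    have hm2 : m + 2 = c + 2 := by
      have := congrArg List.length hm
      simp only [List.length_append, List.length_replicate, List.length_cons,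
        List.length_nil] at this hlen
      omega
    -- `y` is a block of `0`
    have hy1 : 1 ∉ y := by
      have hpre : y <+: List.replicate (m + 1) 0 := by
        have h3 : y <+: List.replicate (m + 1) 0 ++ [1] := by rw [← hm]; exact List.prefix_append _ _
        have h4 : List.replicate (m + 1) 0 <+: List.replicate (m + 1) 0 ++ [1] :=
          List.prefix_append _ _
        exact List.prefix_of_prefix_length_le h3 h4 (by simp; omega)
      intro h1
      have := List.eq_of_mem_replicate (hpre.subset h1)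
      omega
    -- `y` ends with `1`
    have hy2 : 1 ∈ y := by
      have hyne : y ≠ [] := by
        intro h
        rw [h] at hy0
        simp at hy0
      have h3 : (u ++ v ++ y).getLast? = some 1 := by rw [hn]; simp
      rw [List.getLast?_append_of_ne_nil _ hyne] at h3
      exact List.mem_of_getLast? h3
    exact hy1 hy2

end Pool.Agent.Results.MP_b8a1e8_lc.NotIncluded
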